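import Pool.Agent.Helper88.SlabVolume

set_option autoImplicit false

open MeasureTheory Set Real
open Pool.Agent.Helper88.Slab (prob ind A cube cube_split A_abs_b ind_measurable ind_nonneg ind_le_one
  integrable_cube U ind_integrable_cube)

namespace Pool.Agent.Helper89.FA

lemma A_meas {g : ℝ → ℝ} (hg : Measurable g) (b : ℝ) : Measurable (A b g) := by
  unfold Pool.Agent.Helper88.Slab.A
  have : StronglyMeasurable (fun y : ℝ => ∫ u, g (b * u + y) ∂U) := by
    apply StronglyMeasurable.integral_prod_right (f := fun (y u : ℝ) => g (b * u + y))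
    exact (hg.comp (by fun_prop : Measurable fun p : ℝ × ℝ => b * p.2 + p.1)).stronglyMeasurable
  exact this.measurable

lemma A_bound {g : ℝ → ℝ} {C : ℝ} (hC : ∀ x, |g x| ≤ C) (b y : ℝ) :
    |A b g y| ≤ C := by
  unfold Pool.Agent.Helper88.Slab.A
  have := norm_integral_le_of_norm_le_const (μ := U) (f := fun u => g (b * u + y)) (C := C)
    (Filter.Eventually.of_forall fun u => hC _)
  simpa using this

lemma cube_abs {n : ℕ} (a : Fin n → ℝ) : ∀ {g : ℝ → ℝ}, Measurable g → ∀ {C : ℝ}, (∀ x, |g x| ≤ C) →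
    ∫ x, g (∑ j, a j * x j) ∂(cube n) = ∫ x, g (∑ j, |a j| * x j) ∂(cube n) := by
  induction n with
  | zero => intro g hg C hC; simp
  | succ n ih =>
    intro g hg C hC
    have hint : ∀ c : Fin (n+1) → ℝ, Integrable (fun x => g (∑ j, c j * x j)) (cube (n+1)) := by
      intro c
      refine Integrable.of_bound (hg.comp (by fun_prop)).aestronglyMeasurable C ?_
      exact Filter.Eventually.of_forall fun x => hC _
    rw [cube_split 0 a g (hint _), cube_split 0 (fun j => |a j|) g (hint _)]
    have e : A |a 0| g = A (a 0) g := by ext y; exact A_abs_b _ _ _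
    rw [e]
    exact ih (fun j => a (Fin.succAbove 0 j)) (A_meas hg _) (A_bound hC _)

lemma prob_abs {n : ℕ} (a : Fin n → ℝ) (t : ℝ) : prob (fun j => |a j|) t = prob a t := by
  unfold Pool.Agent.Helper88.Slab.prob
  rw [cube_abs a (ind_measurable t) (C := 1)]
  intro x
  rw [abs_of_nonneg (ind_nonneg _ _)]
  exact ind_le_one _ _

lemma prob_nonneg {n : ℕ} (a : Fin n → ℝ) (t : ℝ) : 0 ≤ prob a t := by
  unfold Pool.Agent.Helper88.Slab.prob
  exact integral_nonneg fun x => ind_nonneg _ _

lemma prob_le_one {n : ℕ} (a : Fin n → ℝ) (t : ℝ) : prob a t ≤ 1 := by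
  unfold Pool.Agent.Helper88.Slab.prob
  have h := integral_mono (μ := cube n) (ind_integrable_cube t a) (integrable_const 1)
    (fun x => ind_le_one _ _)
  simpa using h

end Pool.Agent.Helper89.FA
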