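import Pool.Agent.Helper88.SlabVolume
import Pool.Agent.Helper34.Slab.GFun

/-!
The interval lemma: for a unit vector with nonzero coordinates the set of `t` in `(0, √2)` with
`V(f₂,t) ≤ V(a,t)` is an interval.
-/

set_option autoImplicit false

open MeasureTheory Set Real
open Pool.Agent.Helper88.Slab (prob ind A cube)

namespace Pool.Agent.Helper89.FA

/-- One-variable calculus. -/
theorem interval_calc {T g G : ℝ → ℝ} {u v x : ℝ} (hT : ∀ x, HasDerivAt T (-2 * g x) x)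
    (hg : ∀ x, HasDerivAt g (-G x) x)
    (hq : ∀ x y z, 0 < x → x ≤ y → y ≤ z → min (G x) (G z) ≤ G y) (hT0 : T 0 = 1)
    (hT2 : 0 ≤ T √2) (h0 : 0 < u) (hux : u ≤ x) (hxv : x ≤ v) (hv2 : v < √2)
    (hu : T u ≤ (√2 - u) ^ 2 / 2) (hv : T v ≤ (√2 - v) ^ 2 / 2) : T x ≤ (√2 - x) ^ 2 / 2 := by
  rcases eq_or_lt_of_le hux with rfl | hux
  · exact hu
  rcases eq_or_lt_of_le hxv with rfl | hxv
  · exact hv
  by_contra hcon
  push Not at hcon
  have h2 : (√2) ^ 2 = 2 := Real.sq_sqrt (by norm_num)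
  obtain ⟨D, hD⟩ : ∃ D : ℝ → ℝ, D = fun x => (√2 - x) ^ 2 / 2 - T x := ⟨_, rfl⟩
  obtain ⟨E, hE⟩ : ∃ E : ℝ → ℝ, E = fun x => -(√2 - x) + 2 * g x := ⟨_, rfl⟩
  obtain ⟨F, hF⟩ : ∃ F : ℝ → ℝ, F = fun x => 1 - 2 * G x := ⟨_, rfl⟩
  have dD : ∀ x, HasDerivAt D (E x) x := by
    intro x
    rw [hD, hE]
    have h1 : HasDerivAt (fun x : ℝ => (√2 - x) ^ 2 / 2) (-(√2 - x)) x := by
      have := (((hasDerivAt_id x).const_sub (√2)).pow 2).div_const 2
      refine this.congr_deriv ?_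
      simp
      ring
    refine (h1.sub (hT x)).congr_deriv ?_
    ring
  have dE : ∀ x, HasDerivAt E (F x) x := by
    intro x
    rw [hE, hF]
    have h1 : HasDerivAt (fun x : ℝ => -(√2 - x)) 1 x := by
      have := ((hasDerivAt_id x).const_sub (√2)).neg
      refine this.congr_deriv ?_
      simp
    refine (h1.add ((hg x).const_mul 2)).congr_deriv ?_
    ring
  have cD : Continuous D := continuous_iff_continuousAt.mpr fun x => (dD x).continuousAt
  have cE : Continuous E := continuous_iff_continuousAt.mpr fun x => (dE x).continuousAt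
  have mvD : ∀ a b, a < b → ∃ c ∈ Ioo a b, E c = (D b - D a) / (b - a) := fun a b hab =>
    exists_hasDerivAt_eq_slope D E hab cD.continuousOn (fun x _ => dD x)
  have mvE : ∀ a b, a < b → ∃ c ∈ Ioo a b, F c = (E b - E a) / (b - a) := fun a b hab =>
    exists_hasDerivAt_eq_slope E F hab cE.continuousOn (fun x _ => dE x)
  have D0 : D 0 = 0 := by rw [hD]; simp only; rw [hT0, sub_zero, h2]; norm_num
  have Du : 0 ≤ D u := by rw [hD]; simp only; linarith
  have Dx : D x < 0 := by rw [hD]; simp only; linarith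
  have Dv : 0 ≤ D v := by rw [hD]; simp only; linarith
  have D2 : D √2 ≤ 0 := by rw [hD]; simp only; rw [sub_self]; linarith
  obtain ⟨a1, ha1, e1⟩ := mvD 0 u h0
  obtain ⟨a2, ha2, e2⟩ := mvD u x hux
  obtain ⟨a3, ha3, e3⟩ := mvD x v hxv
  obtain ⟨a4, ha4, e4⟩ := mvD v √2 hv2
  have E1 : 0 ≤ E a1 := by
    rw [e1, D0]; apply div_nonneg <;> linarith
  have E2 : E a2 < 0 := by
    rw [e2]; apply div_neg_of_neg_of_pos <;> linarith
  have E3 : 0 < E a3 := by
    rw [e3]; apply div_pos <;> linarith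
  have E4 : E a4 ≤ 0 := by
    rw [e4]; apply div_nonpos_of_nonpos_of_nonneg <;> linarith
  obtain ⟨c1, hc1, f1⟩ := mvE a1 a2 (by linarith [ha1.2, ha2.1])
  obtain ⟨c2, hc2, f2⟩ := mvE a2 a3 (by linarith [ha2.2, ha3.1])
  obtain ⟨c3, hc3, f3⟩ := mvE a3 a4 (by linarith [ha3.2, ha4.1])
  have F1 : F c1 < 0 := by
    rw [f1]; apply div_neg_of_neg_of_pos <;> linarith [ha1.2, ha2.1]
  have F2 : 0 < F c2 := by
    rw [f2]; apply div_pos <;> linarith [ha2.2, ha3.1]
  have F3 : F c3 < 0 := by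
    rw [f3]; apply div_neg_of_neg_of_pos <;> linarith [ha3.2, ha4.1]
  have G1 : 1 / 2 < G c1 := by rw [hF] at F1; simp only at F1; linarith
  have G2 : G c2 < 1 / 2 := by rw [hF] at F2; simp only at F2; linarith
  have G3 : 1 / 2 < G c3 := by rw [hF] at F3; simp only at F3; linarith
  have := hq c1 c2 c3 (by linarith [ha1.1, hc1.1]) (by linarith [hc1.2, hc2.1])
    (by linarith [hc2.2, hc3.1])
  have h3 : 1 / 2 < min (G c1) (G c3) := lt_min G1 G3
  linarith

end Pool.Agent.Helper89.FA
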