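import Pool.Agent.Helper89.FA.Wave
import Pool.Agent.Helper89.FA.Interval
import Pool.Agent.Helper89.FA.ProbAbs
import Pool.Agent.Helper34.Slab.FTwoValue
import Pool.Agent.Helper5.FA.F1b
import Pool.Agent.Helper37.FA.CaseB
import Pool.Agent.Helper28.FA.ProbTwo
import Pool.Agent.Helper83.FA.F5b
import Pool.Agent.Helper65.FA.CaseC
import Pool.Agent.Helper59.FA.F7
import Pool.Agent.Helper82.FA.F8
import Pool.Agent.Helper15.FA.ProbQ

/-!
Assembly of the first assertion.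
-/

set_option autoImplicit false

open MeasureTheory Set Real
open Pool.Agent.Helper88.Slab (prob ind A cube T0 all_case)

namespace Pool.Agent.Helper89.FA

open Pool.Agent.Helper34.Slab (Q Q_deriv Q_neg Qf_values G_tilt)

/-- The interval lemma for positive coordinates. -/
theorem interval_prob {n : ℕ} (hn : 3 ≤ n) (b : Fin n → ℝ) (hb : ∀ j, 0 < b j) {u v x : ℝ}
    (h0 : 0 < u) (hux : u ≤ x) (hxv : x ≤ v) (hv2 : v < √2)
    (hu : 1 - prob b u ≤ (√2 - u) ^ 2 / 2) (hv : 1 - prob b v ≤ (√2 - v) ^ 2 / 2) :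
    1 - prob b x ≤ (√2 - x) ^ 2 / 2 := by
  obtain ⟨k, rfl⟩ : ∃ k, n = k + 3 := ⟨n - 3, by omega⟩
  have hcard : (Finset.univ : Finset (Fin (k + 3))).card = k + 3 := by simp
  have hb0 : ∀ j ∈ (Finset.univ : Finset (Fin (k + 3))), 0 < b j := fun j _ => hb j
  have hT : ∀ y, 0 ≤ y → 1 - prob b y = 2 - 2 * Q b (k + 3) Finset.univ y := by
    intro y hy
    rw [prob_eq_Q (by omega) b hb hy]
    ring
  have hQ0 : Q b (k + 3) Finset.univ 0 = 1 / 2 := by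
    obtain ⟨v0, v1, v2, v3⟩ := Qf_values (k + 3) (Finset.univ : Finset (Fin (k + 3))) hcard
      (fun i hi => (hb0 i hi).ne')
    have h := Q_neg (b := b) (k := k + 3) (by omega) (Finset.univ : Finset (Fin (k + 3))) 0
    rw [v1, hcard, neg_zero, show k + 3 + (k + 3) = 2 * (k + 3) by ring, pow_mul] at h
    norm_num at h
    linarith
  have hx0 : 0 < x := by linarith
  have hv0 : 0 < v := by linarith
  rw [hT x hx0.le]
  refine interval_calc (T := fun y => 2 - 2 * Q b (k + 3) Finset.univ y)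
    (g := Q b (k + 2) Finset.univ) (G := fun y => - Q b (k + 1) Finset.univ y) (u := u) (v := v)
    ?_ ?_ ?_ ?_ ?_ h0 hux hxv hv2 ?_ ?_
  · intro y
    refine (((Q_deriv b (k + 1) Finset.univ y).const_mul 2).const_sub 2).congr_deriv ?_
    ring
  · intro y
    refine (Q_deriv b k Finset.univ y).congr_deriv ?_
    ring
  · intro y1 y2 y3 h1 h12 h23
    have := G_tilt (k := k + 1) (r := (Finset.univ : Finset (Fin (k + 3)))) (by rw [hcard]) hb0 0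
      h1 h12 h23
    simpa using this
  · simp only [hQ0]; norm_num
  · rw [← hT _ (Real.sqrt_nonneg 2)]
    linarith [prob_le_one b (√2)]
  · rw [← hT _ h0.le]; exact hu
  · rw [← hT _ hv0.le]; exact hv

lemma sqrt2_b : 1.4142135 < √2 ∧ √2 < 1.4142136 := by
  constructor
  · rw [Real.lt_sqrt (by norm_num)]; norm_num
  · rw [Real.sqrt_lt' (by norm_num)]; norm_num

lemma sqrt3_b : 1.7320508 < √3 ∧ √3 < 1.7320509 := by
  constructor
  · rw [Real.lt_sqrt (by norm_num)]; norm_num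
  · rw [Real.sqrt_lt' (by norm_num)]; norm_num

/-- `f t = T(f₂,t) - T(f₃,t)`. -/
noncomputable def ff (t : ℝ) : ℝ := (√2 - t) ^ 2 / 2 - (3 - √3 * t) ^ 3 / 24

lemma ff_convex {s t u : ℝ} (hs : 0.97 ≤ s) (hst : s < t) (htu : t < u) :
    ff t * (u - s) ≤ ff s * (u - t) + ff u * (t - s) := by
  obtain ⟨h3a, h3b⟩ := sqrt3_b
  have h33 : √3 ^ 2 = 3 := Real.sq_sqrt (by norm_num)
  have key : ff s * (u - t) + ff u * (t - s) - ff t * (u - s) =
      (u - t) * (t - s) * (u - s) * (1 / 2 - (3 / 8) * 3 + √3 * 3 * (s + t + u) / 24) := by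
    unfold ff
    have h333 : √3 ^ 3 = 3 * √3 := by rw [pow_succ, h33]
    ring_nf
    rw [h33, h333]
    ring
  have h1 : 0 ≤ 1 / 2 - (3 / 8) * 3 + √3 * 3 * (s + t + u) / 24 := by nlinarith
  have h2 : 0 ≤ (u - t) * (t - s) * (u - s) := by
    apply mul_nonneg (mul_nonneg _ _) <;> linarith
  nlinarith [mul_nonneg h2 h1]

lemma ff_cont : Continuous ff := by unfold ff; fun_prop

lemma ff_a : 0 < ff 1.0129 := by
  obtain ⟨h3a, h3b⟩ := sqrt3_b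
  obtain ⟨h2a, h2b⟩ := sqrt2_b
  unfold ff
  have h1 : (0.4013135:ℝ) ≤ √2 - 1.0129 := by linarith
  have h2 : (0.4013135:ℝ) ^ 2 ≤ (√2 - 1.0129) ^ 2 := pow_le_pow_left₀ (by norm_num) h1 2
  have h3 : 3 - √3 * 1.0129 ≤ 1.2456058 := by linarith
  have h4 : (3 - √3 * 1.0129) ^ 3 ≤ 1.2456058 ^ 3 := pow_le_pow_left₀ (by linarith) h3 3
  norm_num at h2 h4 ⊢
  linarith

lemma ff_b : ff 1.01293 < 0 := by
  obtain ⟨h3a, h3b⟩ := sqrt3_b
  obtain ⟨h2a, h2b⟩ := sqrt2_b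
  unfold ff
  have h1 : √2 - 1.01293 ≤ 0.4012836 := by linarith
  have h2 : (√2 - 1.01293) ^ 2 ≤ (0.4012836:ℝ) ^ 2 := pow_le_pow_left₀ (by linarith) h1 2
  have h3 : 1.2455536 ≤ 3 - √3 * 1.01293 := by linarith
  have h4 : (1.2455536:ℝ) ^ 3 ≤ (3 - √3 * 1.01293) ^ 3 := pow_le_pow_left₀ (by norm_num) h3 3
  norm_num at h2 h4 ⊢
  linarith

/-- The crossing. -/
lemma exists_t1 : ∃ t₁ : ℝ, 1.0129 < t₁ ∧ t₁ < 1.01293 ∧ ff t₁ = 0 := by
  obtain ⟨t, ht, h⟩ := intermediate_value_Icc' (by norm_num : (1.0129:ℝ) ≤ 1.01293)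
    ff_cont.continuousOn (show (0:ℝ) ∈ Icc (ff 1.01293) (ff 1.0129) from ⟨ff_b.le, ff_a.le⟩)
  refine ⟨t, ?_, ?_, h⟩
  · rcases eq_or_lt_of_le ht.1 with h1 | h1
    · exfalso; have := ff_a; rw [h1, h] at this; exact lt_irrefl _ this
    · exact h1
  · rcases eq_or_lt_of_le ht.2 with h1 | h1
    · exfalso; have := ff_b; rw [← h1, h] at this; exact lt_irrefl _ this
    · exact h1

lemma ff_two : ff √2 < 0 := by
  obtain ⟨h3a, h3b⟩ := sqrt3_b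
  obtain ⟨h2a, h2b⟩ := sqrt2_b
  unfold ff
  have h1 : 0.5 < 3 - √3 * √2 := by nlinarith
  have h2 : (0.5:ℝ) ^ 3 < (3 - √3 * √2) ^ 3 := pow_lt_pow_left₀ h1 (by norm_num) (by norm_num)
  rw [sub_self]
  norm_num at h2 ⊢
  linarith

lemma ff_neg {t₁ t : ℝ} (h1 : 1.0129 < t₁) (h0 : ff t₁ = 0) (ht : t₁ < t) (ht2 : t ≤ √2) :
    ff t < 0 := by
  rcases eq_or_lt_of_le ht2 with rfl | ht2
  · exact ff_two
  have h := ff_convex (s := t₁) (t := t) (u := √2) (by linarith) ht ht2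
  rw [h0, zero_mul, zero_add] at h
  have h2 := ff_two
  have h3 : 0 < √2 - t₁ := by linarith
  have h4 : ff √2 * (t - t₁) < 0 := mul_neg_of_neg_of_pos h2 (by linarith)
  by_contra hcon
  push Not at hcon
  have := mul_nonneg hcon h3.le
  linarith

/-- Cases (A) and (C). -/
theorem direct {n : ℕ} (a : Fin n → ℝ) (ha : ∑ j, a j ^ 2 = 1) {t : ℝ} (h1 : 1.0129 ≤ t)
    (h2 : t ≤ 1.03) (hM2 : ff t ≤ 0)
    (h : (∃ i, 0.78 ≤ |a i|) ∨ ∃ i j, i ≠ j ∧ t ≤ |a i| + |a j|) :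
    1 - (3 - √3 * t) ^ 3 / 24 ≤ prob a t := by
  rcases h with ⟨i, hi⟩ | ⟨i, j, hij, hs⟩
  · exact caseC a i ha h1 h2 rfl hi
  obtain ⟨h2a, h2b⟩ := sqrt2_b
  have hsum : a i ^ 2 + a j ^ 2 ≤ 1 := by
    rw [← ha]
    have := Finset.sum_le_sum_of_subset_of_nonneg (Finset.subset_univ ({i, j} : Finset (Fin n)))
      (f := fun l => a l ^ 2) (fun l _ _ => sq_nonneg _)
    rwa [Finset.sum_pair hij] at this
  have hpi : |a i| ≤ 1 := by
    rw [abs_le_one_iff_mul_self_le_one]; nlinarith [sq_nonneg (a j)]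
  have hpj : |a j| ≤ 1 := by
    rw [abs_le_one_iff_mul_self_le_one]; nlinarith [sq_nonneg (a i)]
  have hi : a i ≠ 0 := by
    intro h0; rw [h0, abs_zero] at hs; linarith
  have hj : a j ≠ 0 := by
    intro h0; rw [h0, abs_zero] at hs; linarith
  have hp : 0 < |a i| := abs_pos.mpr hi
  have hq : 0 < |a j| := abs_pos.mpr hj
  obtain ⟨k1, k2⟩ := prob_two a i j hij ha (by linarith) hi hj hs
  rcases algebra_two (t := t) (M := (3 - √3 * t) ^ 3 / 24) h1 (by linarith) rfl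
    (by unfold ff at hM2; linarith) hp hq (by rw [sq_abs, sq_abs]; exact hsum) hs with h | ⟨z, hz, hz2, h⟩
  · refine le_trans ?_ k1
    rw [sq_abs, sq_abs] at h
    have : (3 * (|a i| + |a j| - t) ^ 2 + (1 - a i ^ 2 - a j ^ 2)) / (12 * (|a i| * |a j|)) ≤
        (3 - √3 * t) ^ 3 / 24 := by
      rw [div_le_iff₀ (by positivity)]
      linarith
    linarith
  · rw [sq_abs, sq_abs] at hz2
    refine le_trans ?_ (k2 z hz hz2)
    have : (z + (|a i| + |a j| - t)) ^ 3 / (24 * (|a i| * |a j|) * z) ≤ (3 - √3 * t) ^ 3 / 24 := by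
      rw [div_le_iff₀ (by positivity)]
      linarith
    linarith

lemma max_coord {n : ℕ} (a : Fin n → ℝ) (ha : ∑ j, a j ^ 2 = 1) :
    ∃ i, a i ≠ 0 ∧ ∀ j, |a j| ≤ |a i| := by
  have hne : (Finset.univ : Finset (Fin n)).Nonempty := by
    rw [Finset.nonempty_iff_ne_empty]
    intro h
    rw [h] at ha
    simp at ha
  obtain ⟨i, -, hi⟩ := Finset.exists_max_image Finset.univ (fun j => |a j|) hne
  refine ⟨i, ?_, fun j => hi j (Finset.mem_univ j)⟩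
  intro h0
  have : ∀ j, a j = 0 := by
    intro j
    have := hi j (Finset.mem_univ j)
    rw [h0, abs_zero] at this
    exact abs_eq_zero.mp (le_antisymm this (abs_nonneg _))
  simp [this] at ha

lemma wave_lower {n : ℕ} (a : Fin n → ℝ) (ha : ∑ j, a j ^ 2 = 1) {i : Fin n} (hi : a i ≠ 0) {t s : ℝ}
    (ht : 0 < t) (hs : s ≤ ∑' k : ℕ, (-1 : ℝ) ^ k *
      ((∏ j, sinc ((2 * (k : ℝ) + 1) * (a j * (π / (2 * t))))) / (2 * (k : ℝ) + 1))) :
    1 / 2 + (2 / π) * s - 2 * exp (-(27 / 2) * t ^ 2) ≤ prob a t := by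
  have h1 := prob_ge_wave a ha ht
  rw [(wave_expect a i hi ht).2] at h1
  have h2 : (2 / π) * s ≤ (2 / π) * ∑' k : ℕ, (-1 : ℝ) ^ k *
      ((∏ j, sinc ((2 * (k : ℝ) + 1) * (a j * (π / (2 * t))))) / (2 * (k : ℝ) + 1)) :=
    mul_le_mul_of_nonneg_left hs (by positivity)
  linarith

lemma scaled {n : ℕ} (a : Fin n → ℝ) (ha : ∑ j, a j ^ 2 = 1) {t : ℝ} (ht : 1.0129 ≤ t) {i : Fin n}
    (hmax : ∀ j, |a j| ≤ |a i|) (h78 : ∀ j, |a j| < 0.78)
    (hpair : ∀ j k, j ≠ k → |a j| + |a k| < t) :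
    ∑ j, (a j * (π / (2 * t))) ^ 2 = (π / (2 * t)) ^ 2 ∧ |a i * (π / (2 * t))| ≤ 1.21 ∧
    (∀ j, |a j * (π / (2 * t))| ≤ |a i * (π / (2 * t))|) ∧
    ∀ j, j ≠ i → |a j * (π / (2 * t))| + |a i * (π / (2 * t))| ≤ π / 2 := by
  have ht0 : 0 < t := by linarith
  have hθ : 0 < π / (2 * t) := by positivity
  have hθ2 : π / (2 * t) ≤ 1.551 := by
    rw [div_le_iff₀ (by positivity)]
    nlinarith [Real.pi_lt_d6]
  refine ⟨?_, ?_, ?_, ?_⟩
  · simp_rw [mul_pow]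
    rw [← Finset.sum_mul, ha, one_mul]
  · rw [abs_mul, abs_of_pos hθ]
    have := h78 i
    nlinarith [abs_nonneg (a i)]
  · intro j
    rw [abs_mul, abs_mul]
    exact mul_le_mul_of_nonneg_right (hmax j) (abs_nonneg _)
  · intro j hj
    rw [abs_mul, abs_mul, abs_of_pos hθ, ← add_mul]
    have h1 := hpair j i hj
    calc (|a j| + |a i|) * (π / (2 * t)) ≤ t * (π / (2 * t)) :=
          mul_le_mul_of_nonneg_right h1.le hθ.le
      _ = π / 2 := by field_simp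

lemma exp_small {t : ℝ} (ht : 1.0129 ≤ t) : exp (-(27 / 2) * t ^ 2) ≤ 0.000003 := by
  have h1 : exp (-(27 / 2) * t ^ 2) ≤ exp (-13) := by
    apply Real.exp_le_exp.mpr
    nlinarith
  have h2 : exp (-13) ≤ 0.000003 := by
    have h3 : (2.718:ℝ) ^ 13 ≤ exp 1 ^ 13 :=
      pow_le_pow_left₀ (by norm_num) (by linarith [Real.exp_one_gt_d9]) 13
    rw [← Real.exp_nat_mul] at h3
    norm_num at h3
    rw [Real.exp_neg]
    rw [inv_le_comm₀ (Real.exp_pos _) (by norm_num)]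
    refine le_trans ?_ h3
    norm_num
  exact h1.trans h2

/-- Case (B) at the crossing. -/
theorem node1 {n : ℕ} (a : Fin n → ℝ) (ha : ∑ j, a j ^ 2 = 1) {t : ℝ} (h1 : 1.0129 < t)
    (h2 : t < 1.01293) (h78 : ∀ j, |a j| < 0.78) (hpair : ∀ j k, j ≠ k → |a j| + |a k| < t) :
    1 - (3 - √3 * t) ^ 3 / 24 ≤ prob a t := by
  obtain ⟨i, hi, hmax⟩ := max_coord a ha
  obtain ⟨e1, e2, e3, e4⟩ := scaled a ha h1.le hmax h78 hpair
  have ht0 : 0 < t := by linarith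
  have hθl : 1.550743 ≤ π / (2 * t) := by
    rw [le_div_iff₀ (by positivity)]
    nlinarith [Real.pi_gt_d6]
  have hθr : π / (2 * t) ≤ 1.5508 := by
    rw [div_le_iff₀ (by positivity)]
    nlinarith [Real.pi_lt_d6]
  have hs := caseB_one (fun j => a j * (π / (2 * t))) i e1
    (by nlinarith) (by nlinarith) e2 e3 e4
  have h3 := wave_lower a ha hi ht0 hs
  refine le_trans ?_ h3
  have h4 := exp_small h1.le
  have h5 : 0.63661968 ≤ 2 / π := by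
    rw [le_div_iff₀ Real.pi_pos]
    nlinarith [Real.pi_lt_d6]
  obtain ⟨h3a, h3b⟩ := sqrt3_b
  have h6 : 1.2455536 ≤ 3 - √3 * t := by nlinarith
  have h7 : (1.2455536:ℝ) ^ 3 ≤ (3 - √3 * t) ^ 3 := pow_le_pow_left₀ (by norm_num) h6 3
  norm_num at h7
  nlinarith

/-- Case (B) at `1.02`. -/
theorem node2 {n : ℕ} (a : Fin n → ℝ) (ha : ∑ j, a j ^ 2 = 1)
    (h78 : ∀ j, |a j| < 0.78) (hpair : ∀ j k, j ≠ k → |a j| + |a k| < 1.02) :
    1 - (3 - √3 * 1.02) ^ 3 / 24 + 0.00004 ≤ prob a 1.02 := by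
  obtain ⟨i, hi, hmax⟩ := max_coord a ha
  obtain ⟨e1, e2, e3, e4⟩ := scaled a ha (by norm_num : (1.0129:ℝ) ≤ 1.02) hmax h78 hpair
  have hθl : 1.539995 ≤ π / (2 * 1.02) := by
    rw [le_div_iff₀ (by positivity)]
    nlinarith [Real.pi_gt_d6]
  have hθr : π / (2 * 1.02) ≤ 1.539997 := by
    rw [div_le_iff₀ (by positivity)]
    nlinarith [Real.pi_lt_d6]
  have hs := caseB_two (fun j => a j * (π / (2 * 1.02))) i e1
    (by nlinarith) (by nlinarith) e2 e3 e4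
  have h3 := wave_lower a ha hi (by norm_num) hs
  refine le_trans ?_ h3
  have h4 := exp_small (by norm_num : (1.0129:ℝ) ≤ 1.02)
  have h5 : 0.63661968 ≤ 2 / π := by
    rw [le_div_iff₀ Real.pi_pos]
    nlinarith [Real.pi_lt_d6]
  obtain ⟨h3a, h3b⟩ := sqrt3_b
  have h6 : 1.233308 ≤ 3 - √3 * 1.02 := by linarith
  have h7 : (1.233308:ℝ) ^ 3 ≤ (3 - √3 * 1.02) ^ 3 := pow_le_pow_left₀ (by norm_num) h6 3
  norm_num at h7 h4 ⊢
  nlinarith

/-- `1 - T(f₃,t)` is a lower bound at `t₁` for every unit vector. -/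
theorem at_t1 {n : ℕ} (a : Fin n → ℝ) (ha : ∑ j, a j ^ 2 = 1) {t : ℝ} (h1 : 1.0129 < t)
    (h2 : t < 1.01293) (hM : ff t ≤ 0) : 1 - (3 - √3 * t) ^ 3 / 24 ≤ prob a t := by
  by_cases h : (∃ i, 0.78 ≤ |a i|) ∨ ∃ i j, i ≠ j ∧ t ≤ |a i| + |a j|
  · exact direct a ha h1.le (by linarith) hM h
  · push Not at h
    exact node1 a ha h1 h2 h.1 h.2

/-- Convexity chord for the cubic. -/
lemma chord {t₁ t l : ℝ} (h1 : 1.0129 < t₁) (h2 : t₁ < 1.01293) (hl0 : 0 ≤ l) (hl1 : l ≤ 1)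
    (ht : t = (1 - l) * t₁ + l * 1.02) :
    (1 - l) * (3 - √3 * t₁) ^ 3 / 24 + l * (3 - √3 * 1.02) ^ 3 / 24 ≤
      (3 - √3 * t) ^ 3 / 24 + 0.00004 * l := by
  obtain ⟨h3a, h3b⟩ := sqrt3_b
  have h33 : √3 ^ 2 = 3 := Real.sq_sqrt (by norm_num)
  obtain ⟨y0, hy0⟩ : ∃ y, y = 3 - √3 * t₁ := ⟨_, rfl⟩
  obtain ⟨y1, hy1⟩ : ∃ y, y = 3 - √3 * 1.02 := ⟨_, rfl⟩
  have hy : 3 - √3 * t = (1 - l) * y0 + l * y1 := by rw [ht, hy0, hy1]; ring
  rw [hy, ← hy0, ← hy1]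
  have key : (1 - l) * y0 ^ 3 + l * y1 ^ 3 - ((1 - l) * y0 + l * y1) ^ 3 =
      l * ((1 - l) * (y0 - y1) ^ 2 * ((2 - l) * y0 + (1 + l) * y1)) := by ring
  have d1 : y0 - y1 = √3 * (1.02 - t₁) := by rw [hy0, hy1]; ring
  have d2 : (y0 - y1) ^ 2 ≤ 0.000152 := by
    rw [d1, mul_pow, h33]
    nlinarith
  have b0 : y0 ≤ 1.2457 := by rw [hy0]; nlinarith
  have b0' : 0 ≤ y0 := by rw [hy0]; nlinarith
  have b1 : y1 ≤ 1.2457 := by rw [hy1]; nlinarith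
  have b1' : 0 ≤ y1 := by rw [hy1]; nlinarith
  have h4 : (2 - l) * y0 + (1 + l) * y1 ≤ 3.7371 := by nlinarith
  have h4' : 0 ≤ (2 - l) * y0 + (1 + l) * y1 := by
    apply add_nonneg <;> apply mul_nonneg <;> linarith
  have h5 : (1 - l) * (y0 - y1) ^ 2 ≤ 0.000152 := by nlinarith [sq_nonneg (y0 - y1)]
  have h5' : 0 ≤ (1 - l) * (y0 - y1) ^ 2 := mul_nonneg (by linarith) (sq_nonneg _)
  have h6 : (1 - l) * (y0 - y1) ^ 2 * ((2 - l) * y0 + (1 + l) * y1) ≤ 0.000152 * 3.7371 :=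
    mul_le_mul h5 h4 h4' (by norm_num)
  have h7 : l * ((1 - l) * (y0 - y1) ^ 2 * ((2 - l) * y0 + (1 + l) * y1)) ≤ l * (0.000152 * 3.7371) :=
    mul_le_mul_of_nonneg_left h6 hl0
  have h8 : l * (0.000152 * 3.7371) ≤ 24 * (0.00004 * l) := by nlinarith
  linarith

/-- `f₃` is minimal on `[t₁, 1.02]`. -/
theorem three_min {n : ℕ} (a : Fin n → ℝ) (ha : ∑ j, a j ^ 2 = 1) {t₁ t : ℝ} (h1 : 1.0129 < t₁)
    (h2 : t₁ < 1.01293) (h0 : ff t₁ = 0) (ht : t₁ ≤ t) (ht2 : t ≤ 1.02) :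
    1 - (3 - √3 * t) ^ 3 / 24 ≤ prob a t := by
  obtain ⟨h2a, h2b⟩ := sqrt2_b
  have hM : ff t ≤ 0 := by
    rcases eq_or_lt_of_le ht with rfl | ht
    · exact h0.le
    · exact (ff_neg h1 h0 ht (by linarith)).le
  by_cases h : (∃ i, 0.78 ≤ |a i|) ∨ ∃ i j, i ≠ j ∧ t ≤ |a i| + |a j|
  · exact direct a ha (by linarith) (by linarith) hM h
  push Not at h
  obtain ⟨h78, hpair⟩ := h
  obtain ⟨i, hi, -⟩ := max_coord a ha
  obtain ⟨l, hl⟩ : ∃ l, l = (t - t₁) / (1.02 - t₁) := ⟨_, rfl⟩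
  have hd : 0 < 1.02 - t₁ := by linarith
  have hl0 : 0 ≤ l := by rw [hl]; apply div_nonneg <;> linarith
  have hl1 : l ≤ 1 := by rw [hl, div_le_one hd]; linarith
  have htl : t = (1 - l) * t₁ + l * 1.02 := by rw [hl]; field_simp; ring
  have k1 := prob_concave a i hi (t := t₁) (t' := 1.02) (by linarith) (by linarith) hl0 hl1
  rw [← htl] at k1
  have k2 := at_t1 a ha h1 h2 h0.le
  have k3 := node2 a ha h78 (fun j k hjk => lt_of_lt_of_le (hpair j k hjk) ht2)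
  have k4 := chord h1 h2 hl0 hl1 htl
  have k5 : (1 - l) * (1 - (3 - √3 * t₁) ^ 3 / 24) ≤ (1 - l) * prob a t₁ :=
    mul_le_mul_of_nonneg_left k2 (by linarith)
  have k6 : l * (1 - (3 - √3 * 1.02) ^ 3 / 24 + 0.00004) ≤ l * prob a 1.02 :=
    mul_le_mul_of_nonneg_left k3 hl0
  linarith

/-- `f₂` is minimal on `[2√2-2, t₁]`, positive coordinates. -/
theorem two_min_pos {n : ℕ} (hn : 3 ≤ n) (b : Fin n → ℝ) (hb : ∀ j, 0 < b j)
    (hb1 : ∑ j, b j ^ 2 = 1) {t₁ t : ℝ} (h1 : 1.0129 < t₁) (h2 : t₁ < 1.01293) (h0 : ff t₁ = 0)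
    (ht : 2 * √2 - 2 ≤ t) (ht2 : t ≤ t₁) : 1 - prob b t ≤ (√2 - t) ^ 2 / 2 := by
  obtain ⟨h2a, h2b⟩ := sqrt2_b
  have h22 : √2 ^ 2 = 2 := Real.sq_sqrt (by norm_num)
  refine interval_prob hn b hb (u := 2 * √2 - 2) (v := t₁) (by linarith) ht ht2 (by linarith) ?_ ?_
  · have := all_case b hb1
    unfold Pool.Agent.Helper88.Slab.T0 at this
    nlinarith
  · have := at_t1 b hb1 h1 h2 h0.le
    unfold ff at h0
    linarith

/-- `f₂` is minimal on `[2√2-2, t₁]`. -/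
theorem two_min {n : ℕ} (hn : 3 ≤ n) (a : Fin n → ℝ) (ha : ∑ j, a j ^ 2 = 1) {t₁ t : ℝ}
    (h1 : 1.0129 < t₁) (h2 : t₁ < 1.01293) (h0 : ff t₁ = 0)
    (ht : 2 * √2 - 2 ≤ t) (ht2 : t ≤ t₁) : 1 - prob a t ≤ (√2 - t) ^ 2 / 2 := by
  obtain ⟨h2a, h2b⟩ := sqrt2_b
  obtain ⟨i, hi, -⟩ := max_coord a ha
  -- approximation by positive vectors
  obtain ⟨c, hc⟩ : ∃ c : ℕ → Fin n → ℝ, c = fun (k : ℕ) (j : Fin n) => |a j| + 1 / ((k : ℝ) + 1) := ⟨_, rfl⟩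
  obtain ⟨N, hN⟩ : ∃ N : ℕ → ℝ, N = fun k => √(∑ j, c k j ^ 2) := ⟨_, rfl⟩
  have cpos : ∀ k j, 0 < c k j := by
    intro k j; rw [hc]; simp only; have := abs_nonneg (a j); positivity
  have clim : ∀ j, Filter.Tendsto (fun k => c k j) Filter.atTop (nhds |a j|) := by
    intro j
    rw [hc]
    have := (tendsto_one_div_add_atTop_nhds_zero_nat (𝕜 := ℝ)).const_add |a j|
    simpa using this
  have Nlim : Filter.Tendsto N Filter.atTop (nhds 1) := by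
    rw [hN]
    have h3 : Filter.Tendsto (fun k => ∑ j, c k j ^ 2) Filter.atTop (nhds (∑ j, |a j| ^ 2)) :=
      tendsto_finsetSum _ (fun j _ => (clim j).pow 2)
    have h4 := h3.sqrt
    simp only [sq_abs, ha, Real.sqrt_one] at h4
    exact h4
  have hne : (Finset.univ : Finset (Fin n)).Nonempty := ⟨i, Finset.mem_univ i⟩
  have Spos : ∀ k, 0 < ∑ j, c k j ^ 2 := fun k =>
    Finset.sum_pos (fun j _ => by have := cpos k j; positivity) hne
  have Npos : ∀ k, 0 < N k := by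
    intro k; rw [hN]; exact Real.sqrt_pos.mpr (Spos k)
  have Nsq : ∀ k, N k ^ 2 = ∑ j, c k j ^ 2 := by
    intro k; rw [hN]; exact Real.sq_sqrt (Spos k).le
  have key : ∀ k, 1 - prob (fun j => c k j / N k) t ≤ (√2 - t) ^ 2 / 2 := by
    intro k
    refine two_min_pos hn _ (fun j => div_pos (cpos k j) (Npos k)) ?_ h1 h2 h0 ht ht2
    simp_rw [div_pow]
    rw [← Finset.sum_div, Nsq k, div_self (Spos k).ne']
  have lim := prob_tendsto (fun k j => c k j / N k) (fun j => |a j|) (fun j => by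
    have h5 := (clim j).div Nlim one_ne_zero
    rw [div_one] at h5
    exact h5) i (by simpa using hi) (t := t) (by linarith)
  rw [prob_abs] at lim
  have lim2 : Filter.Tendsto (fun k => 1 - prob (fun j => c k j / N k) t) Filter.atTop
      (nhds (1 - prob a t)) := lim.const_sub 1
  exact le_of_tendsto lim2 (Filter.Eventually.of_forall key)

/-- Volumes from probabilities. -/
lemma vol_le {n : ℕ} (a b : Fin n → ℝ) {t : ℝ} (h : prob a t ≤ prob b t) :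
    volume {x : Fin n → ℝ | (∀ i, |x i| ≤ 1) ∧ |∑ i, a i * x i| ≤ t} ≤
      volume {x : Fin n → ℝ | (∀ i, |x i| ≤ 1) ∧ |∑ i, b i * x i| ≤ t} := by
  rw [Pool.Agent.Helper88.Slab.volume_slab_pi, Pool.Agent.Helper88.Slab.volume_slab_pi]
  exact mul_le_mul_right (ENNReal.ofReal_le_ofReal h) _

lemma vol_lt {n : ℕ} (a b : Fin n → ℝ) {t : ℝ} (h : prob a t < prob b t) :
    volume {x : Fin n → ℝ | (∀ i, |x i| ≤ 1) ∧ |∑ i, a i * x i| ≤ t} <
      volume {x : Fin n → ℝ | (∀ i, |x i| ≤ 1) ∧ |∑ i, b i * x i| ≤ t} := by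
  rw [Pool.Agent.Helper88.Slab.volume_slab_pi, Pool.Agent.Helper88.Slab.volume_slab_pi]
  refine (ENNReal.mul_lt_mul_iff_right (by positivity) (ENNReal.pow_ne_top (by norm_num))).mpr ?_
  exact (ENNReal.ofReal_lt_ofReal_iff (lt_of_le_of_lt (prob_nonneg a t) h)).mpr h

/-- Values of the candidates and both minimality statements. -/
theorem first_assertion : ∃ t₁ : ℝ, 1.0129 < t₁ ∧ t₁ < 1.01293 ∧
    (Real.sqrt 2 - t₁) ^ 2 / 2 = (3 - Real.sqrt 3 * t₁) ^ 3 / 24 ∧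
    ∀ n : ℕ, 3 ≤ n →
      (∀ t : ℝ, 2 * Real.sqrt 2 - 2 < t → t ≤ t₁ → ∀ a : Fin n → ℝ, ∑ i, a i ^ 2 = 1 →
        volume {x : Fin n → ℝ | (∀ i, |x i| ≤ 1) ∧
          |∑ i : Fin n, (if (i : ℕ) < 2 then 1 / Real.sqrt 2 else 0) * x i| ≤ t} ≤
        volume {x : Fin n → ℝ | (∀ i, |x i| ≤ 1) ∧ |∑ i, a i * x i| ≤ t}) ∧
      (∀ t : ℝ, t₁ < t → t < Real.sqrt 2 →
        volume {x : Fin n → ℝ | (∀ i, |x i| ≤ 1) ∧
          |∑ i : Fin n, (if (i : ℕ) < 3 then 1 / Real.sqrt 3 else 0) * x i| ≤ t} <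
        volume {x : Fin n → ℝ | (∀ i, |x i| ≤ 1) ∧
          |∑ i : Fin n, (if (i : ℕ) < 2 then 1 / Real.sqrt 2 else 0) * x i| ≤ t}) ∧
      (∀ t : ℝ, t₁ ≤ t → t ≤ 1.02 → ∀ a : Fin n → ℝ, ∑ i, a i ^ 2 = 1 →
        volume {x : Fin n → ℝ | (∀ i, |x i| ≤ 1) ∧
          |∑ i : Fin n, (if (i : ℕ) < 3 then 1 / Real.sqrt 3 else 0) * x i| ≤ t} ≤
        volume {x : Fin n → ℝ | (∀ i, |x i| ≤ 1) ∧ |∑ i, a i * x i| ≤ t}) := by
  obtain ⟨t₁, h1, h2, h0⟩ := exists_t1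
  obtain ⟨h2a, h2b⟩ := sqrt2_b
  obtain ⟨h3a, h3b⟩ := sqrt3_b
  have h33 : √3 ^ 2 = 3 := Real.sq_sqrt (by norm_num)
  have h22 : √2 ^ 2 = 2 := Real.sq_sqrt (by norm_num)
  refine ⟨t₁, h1, h2, ?_, ?_⟩
  · unfold ff at h0; linarith
  intro n hn
  have e2 : ∀ t, 2 * √2 - 2 ≤ t → t ≤ √2 →
      prob (fun j : Fin n => if (j : ℕ) < 2 then 1 / √2 else 0) t = 1 - (√2 - t) ^ 2 / 2 := by
    intro t ht1 ht2
    rw [Pool.Agent.Helper34.Slab.prob_f2 (by omega) _ ht2]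
    · nlinarith
    · rw [div_le_iff₀ (by positivity)]; nlinarith
  have e3 : ∀ t, 2 * √2 - 2 ≤ t → t ≤ √2 →
      prob (fun j : Fin n => if (j : ℕ) < 3 then 1 / √3 else 0) t = 1 - (3 - √3 * t) ^ 3 / 24 := by
    intro t ht1 ht2
    rw [prob_f3 hn _ (by linarith)]
    rw [div_le_iff₀ (by positivity)]; nlinarith
  refine ⟨?_, ?_, ?_⟩
  · intro t ht1 ht2 a ha
    apply vol_le
    rw [e2 t ht1.le (by linarith)]
    linarith [two_min hn a ha h1 h2 h0 ht1.le ht2]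
  · intro t ht1 ht2
    apply vol_lt
    rw [e2 t (by linarith) ht2.le, e3 t (by linarith) ht2.le]
    have := ff_neg h1 h0 ht1 ht2.le
    unfold ff at this
    linarith
  · intro t ht1 ht2 a ha
    apply vol_le
    rw [e3 t (by linarith) (by linarith)]
    linarith [three_min a ha h1 h2 h0 ht1 ht2]

end Pool.Agent.Helper89.FA
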