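import Mathlib.NumberTheory.ZetaValues
import Pool.Agent.Helper88.SlabFourier

/-!
F1a: the Fourier series of the square wave, averaged.
-/

set_option autoImplicit false

open MeasureTheory Set Real
open Pool.Agent.Helper88.Slab (prob ind A cube cube_split cube_cos A_eq integrable_cube)

namespace Pool.Agent.Helper89.FA

namespace Wave

lemma cos_odd_pi (k : ℕ) (v : ℝ) :
    cos ((2 * (k : ℝ) + 1) * (v + π)) = - cos ((2 * (k : ℝ) + 1) * v) := by
  have : (2 * (k : ℝ) + 1) * (v + π) = (2 * (k : ℝ) + 1) * v + π + (k : ℝ) * (2 * π) := by ring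
  rw [this, Real.cos_add_nat_mul_two_pi, Real.cos_add_pi]

lemma cos_even_pi (k : ℕ) (v : ℝ) :
    cos ((2 * (k : ℝ)) * (v + π)) = cos ((2 * (k : ℝ)) * v) := by
  have : (2 * (k : ℝ)) * (v + π) = (2 * (k : ℝ)) * v + (k : ℝ) * (2 * π) := by ring
  rw [this, Real.cos_add_nat_mul_two_pi]

lemma hasSum_cos_all {v : ℝ} (h0 : 0 ≤ v) (h1 : v ≤ 2 * π) :
    HasSum (fun n : ℕ => 1 / (n : ℝ) ^ 2 * cos ((n : ℝ) * v)) (v ^ 2 / 4 - π * v / 2 + π ^ 2 / 6) := by
  have hx : v / (2 * π) ∈ Icc (0 : ℝ) 1 := by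
    constructor
    · positivity
    · rw [div_le_one (by positivity)]; exact h1
  have h := hasSum_one_div_nat_pow_mul_cos (k := 1) one_ne_zero hx
  have hb : (Polynomial.map (algebraMap ℚ ℝ) (Polynomial.bernoulli 2)) =
      Polynomial.X ^ 2 - Polynomial.X + Polynomial.C (1 / 6 : ℝ) := by
    rw [Polynomial.bernoulli]
    simp only [Finset.sum_range_succ, Finset.sum_range_zero, Polynomial.map_add,
      Polynomial.map_monomial]
    norm_num [bernoulli_one, bernoulli_two, Polynomial.monomial_zero_left, Nat.choose]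
    rw [show Polynomial.monomial 2 (1:ℝ) = Polynomial.X ^ 2 from by
      rw [← Polynomial.C_mul_X_pow_eq_monomial]; simp]
    rw [show Polynomial.monomial 1 (1:ℝ) = Polynomial.X from by
      rw [← Polynomial.C_mul_X_pow_eq_monomial]; simp]
    ring
  convert h using 1
  · funext n
    congr 2
    field_simp
  · rw [mul_one, hb]
    simp [Nat.factorial]
    field_simp
    ring

lemma hasSum_cos_odd {v : ℝ} (h0 : 0 ≤ v) (h1 : v ≤ π) :
    HasSum (fun k : ℕ => cos ((2 * (k : ℝ) + 1) * v) / (2 * (k : ℝ) + 1) ^ 2)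
      (π ^ 2 / 8 - π * v / 4) := by
  have hpi := Real.pi_pos
  have e1 := hasSum_cos_all h0 (by linarith)
  have e2 := hasSum_cos_all (v := v + π) (by linarith) (by linarith)
  have e3 := (e1.sub e2).mul_left (1 / 2)
  have hinj : Function.Injective (fun k : ℕ => 2 * k + 1) := by
    intro a b hab; simp only at hab; omega
  have hf : ∀ x ∉ Set.range (fun k : ℕ => 2 * k + 1),
      (fun n : ℕ => (1 / 2 : ℝ) * (1 / (n : ℝ) ^ 2 * cos ((n : ℝ) * v) -
        1 / (n : ℝ) ^ 2 * cos ((n : ℝ) * (v + π)))) x = 0 := by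
    intro x hx
    have hev : Even x := by
      rw [← Nat.not_odd_iff_even]
      rintro ⟨k, hk⟩
      exact hx ⟨k, hk.symm⟩
    obtain ⟨k, hk⟩ := hev
    have hk2 : (x : ℝ) = 2 * (k : ℝ) := by rw [hk]; push_cast; ring
    simp only [hk2, cos_even_pi, sub_self, mul_zero]
  rw [← Function.Injective.hasSum_iff hinj hf] at e3
  convert e3 using 1
  · funext k
    simp only [Function.comp]
    push_cast
    rw [cos_odd_pi]
    ring
  · ring

lemma sin_odd (k : ℕ) (u : ℝ) :
    cos ((2 * (k : ℝ) + 1) * (π / 2 - u)) = (-1 : ℝ) ^ k * sin ((2 * (k : ℝ) + 1) * u) := by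
  have : (2 * (k : ℝ) + 1) * (π / 2 - u) = (π / 2 - (2 * (k : ℝ) + 1) * u) + (k : ℝ) * π := by ring
  rw [this, Real.cos_add_nat_mul_pi, Real.cos_pi_div_two_sub]

lemma hasSum_sin_small {u : ℝ} (h0 : -(π / 2) ≤ u) (h1 : u ≤ π / 2) :
    HasSum (fun k : ℕ => (-1 : ℝ) ^ k * sin ((2 * (k : ℝ) + 1) * u) / (2 * (k : ℝ) + 1) ^ 2)
      (π / 4 * u) := by
  have h := hasSum_cos_odd (v := π / 2 - u) (by linarith) (by linarith)
  simp_rw [sin_odd] at h
  convert h using 1
  ring

lemma sin_odd_congr (k : ℕ) {u u' : ℝ} (h : sin u = sin u') :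
    sin ((2 * (k : ℝ) + 1) * u) = sin ((2 * (k : ℝ) + 1) * u') := by
  rw [Real.sin_eq_sin_iff] at h
  obtain ⟨m, h | h⟩ := h
  · rw [h]
    have : (2 * (k : ℝ) + 1) * (2 * (m : ℝ) * π + u) =
        (2 * (k : ℝ) + 1) * u + (((2 * (k : ℤ) + 1) * m : ℤ) : ℝ) * (2 * π) := by
      push_cast; ring
    rw [this, Real.sin_add_int_mul_two_pi]
  · rw [h]
    have : (2 * (k : ℝ) + 1) * ((2 * (m : ℝ) + 1) * π - u) =
        (π - (2 * (k : ℝ) + 1) * u) + ((2 * (k : ℤ) * m + (k : ℤ) + m : ℤ) : ℝ) * (2 * π) := by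
      push_cast; ring
    rw [this, Real.sin_add_int_mul_two_pi, Real.sin_pi_sub]

lemma hasSum_sin (u : ℝ) :
    HasSum (fun k : ℕ => (-1 : ℝ) ^ k * sin ((2 * (k : ℝ) + 1) * u) / (2 * (k : ℝ) + 1) ^ 2)
      (π / 4 * arcsin (sin u)) := by
  have h := hasSum_sin_small (Real.neg_pi_div_two_le_arcsin (sin u))
    (Real.arcsin_le_pi_div_two (sin u))
  have h2 : sin (arcsin (sin u)) = sin u :=
    Real.sin_arcsin (Real.neg_one_le_sin u) (Real.sin_le_one u)
  simp_rw [fun k => sin_odd_congr k h2] at h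
  exact h

lemma countable_cos_zero : Set.Countable {u : ℝ | cos u = 0} := by
  have : {u : ℝ | cos u = 0} ⊆ Set.range (fun k : ℤ => (2 * (k : ℝ) + 1) * π / 2) := by
    intro u hu
    rw [Set.mem_ofPred_eq, Real.cos_eq_zero_iff] at hu
    obtain ⟨k, hk⟩ := hu
    exact ⟨k, hk.symm⟩
  exact (Set.countable_range _).mono this

/-- The square wave. -/
noncomputable def sq (u : ℝ) : ℝ := if 0 < cos u then 1 else 0

lemma sq_meas : Measurable sq := by
  unfold sq
  exact Measurable.ite (measurableSet_lt measurable_const Real.continuous_cos.measurable)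
    measurable_const measurable_const

lemma sq_nonneg' (u : ℝ) : 0 ≤ sq u := by unfold sq; split_ifs <;> norm_num

lemma sq_le_one (u : ℝ) : sq u ≤ 1 := by unfold sq; split_ifs <;> norm_num

lemma sq_int (x y : ℝ) : IntervalIntegrable sq volume x y := by
  rw [intervalIntegrable_iff]
  refine Measure.integrableOn_of_bounded (M := 1) ?_ sq_meas.aestronglyMeasurable ?_
  · exact measure_Ioc_lt_top.ne
  · filter_upwards with u
    rw [Real.norm_of_nonneg (sq_nonneg' u)]
    exact sq_le_one u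

lemma integral_sq (x y : ℝ) :
    ∫ u in x..y, sq u = (arcsin (sin y) + y) / 2 - (arcsin (sin x) + x) / 2 := by
  refine integral_eq_of_hasDerivAt_off_countable (fun u => (arcsin (sin u) + u) / 2) sq
    countable_cos_zero ?_ ?_ (sq_int x y)
  · fun_prop
  · intro u hu
    have hc : cos u ≠ 0 := hu.2
    have hs : cos u ^ 2 = 1 - sin u ^ 2 := by nlinarith [Real.sin_sq_add_cos_sq u]
    have hpos : 0 < cos u ^ 2 := by positivity
    have h1 : sin u ≠ -1 := by
      intro h; rw [h] at hs; norm_num at hs; exact hc hs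
    have h2 : sin u ≠ 1 := by
      intro h; rw [h] at hs; norm_num at hs; exact hc hs
    have hd := ((Real.hasDerivAt_arcsin h1 h2).comp u (Real.hasDerivAt_sin u))
    have hd2 := (hd.add (hasDerivAt_id u)).div_const 2
    have e : √(1 - sin u ^ 2) = |cos u| := by rw [← hs, Real.sqrt_sq_eq_abs]
    refine (hd2.congr_deriv ?_)
    rw [e]
    unfold sq
    split_ifs with hh
    · rw [abs_of_pos hh]; field_simp; ring
    · have hlt : cos u < 0 := lt_of_le_of_ne (not_lt.mp hh) hc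
      rw [abs_of_neg hlt]; field_simp; ring

lemma A_sq {a θ : ℝ} (h : a * θ ≠ 0) (y : ℝ) :
    A a (fun z => sq (θ * z)) y = 1 / 2 +
      (arcsin (sin (θ * y + a * θ)) - arcsin (sin (θ * y - a * θ))) / (4 * (a * θ)) := by
  rw [A_eq]
  have h1 : ∀ u : ℝ, sq (θ * (a * u + y)) = sq ((a * θ) * u + θ * y) := by
    intro u; ring_nf
  simp_rw [h1]
  rw [intervalIntegral.integral_comp_mul_add sq h (θ * y), integral_sq]
  rw [show (a * θ) * 1 + θ * y = θ * y + a * θ by ring,
    show (a * θ) * (-1) + θ * y = θ * y - a * θ by ring, smul_eq_mul]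
  obtain ⟨c, hc⟩ : ∃ c, c = a * θ := ⟨_, rfl⟩
  rw [← hc] at h ⊢
  field_simp
  ring

lemma hasSum_A {a θ : ℝ} (h : a * θ ≠ 0) (y : ℝ) :
    HasSum (fun k : ℕ => (2 / π) * ((-1 : ℝ) ^ k * (sinc ((2 * (k : ℝ) + 1) * (a * θ)) /
      (2 * (k : ℝ) + 1)) * cos ((2 * (k : ℝ) + 1) * θ * y)))
      (A a (fun z => sq (θ * z)) y - 1 / 2) := by
  have h1 := hasSum_sin (θ * y + a * θ)
  have h2 := hasSum_sin (θ * y - a * θ)
  have h3 := ((h1.sub h2).mul_left (4 / π)).mul_left (1 / (4 * (a * θ)))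
  obtain ⟨c, hc⟩ : ∃ c, c = a * θ := ⟨_, rfl⟩
  rw [← hc] at h h3 ⊢
  have ev : A a (fun z => sq (θ * z)) y - 1 / 2 = 1 / (4 * c) * (4 / π *
      (π / 4 * arcsin (sin (θ * y + c)) - π / 4 * arcsin (sin (θ * y - c)))) := by
    have := A_sq (a := a) (θ := θ) (by rw [← hc]; exact h) y
    rw [← hc] at this
    rw [this]
    field_simp
    ring
  rw [ev]
  refine h3.congr_fun ?_
  intro k
  have hk : (2 * (k : ℝ) + 1) ≠ 0 := by positivity
  rw [sinc_of_ne_zero (mul_ne_zero hk h)]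
  have e1 : (2 * (k : ℝ) + 1) * (θ * y + c) =
    (2 * (k : ℝ) + 1) * θ * y + (2 * (k : ℝ) + 1) * c := by ring
  have e2 : (2 * (k : ℝ) + 1) * (θ * y - c) =
    (2 * (k : ℝ) + 1) * θ * y - (2 * (k : ℝ) + 1) * c := by ring
  rw [e1, e2, Real.sin_add, Real.sin_sub]
  field_simp
  ring

lemma sinc_le_inv {c : ℝ} (hc : c ≠ 0) (k : ℕ) :
    |sinc ((2 * (k : ℝ) + 1) * c)| / (2 * (k : ℝ) + 1) ≤ (1 / |c|) * (1 / (2 * (k : ℝ) + 1) ^ 2) := by
  have hk : (0 : ℝ) < 2 * (k : ℝ) + 1 := by positivity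
  rw [sinc_of_ne_zero (mul_ne_zero hk.ne' hc), abs_div, abs_mul, abs_of_pos hk]
  have hc' : 0 < |c| := abs_pos.mpr hc
  rw [div_div, div_mul_div_comm, one_mul, div_le_div_iff₀ (by positivity) (by positivity)]
  have := Real.abs_sin_le_one ((2 * (k : ℝ) + 1) * c)
  nlinarith [mul_pos hc' (pow_pos hk 2)]

lemma summable_odd : Summable (fun k : ℕ => 1 / (2 * (k : ℝ) + 1) ^ 2) := by
  have h := (Real.summable_one_div_nat_pow (p := 2)).mpr (by norm_num)
  have hinj : Function.Injective (fun k : ℕ => 2 * k + 1) := by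
    intro a b hab; simp only at hab; omega
  have := h.comp_injective hinj
  refine this.congr ?_
  intro k
  simp

lemma summable_sinc {c : ℝ} (hc : c ≠ 0) :
    Summable (fun k : ℕ => |sinc ((2 * (k : ℝ) + 1) * c)| / (2 * (k : ℝ) + 1)) :=
  Summable.of_nonneg_of_le (fun k => by positivity) (fun k => sinc_le_inv hc k)
    (summable_odd.mul_left _)

lemma abs_prod_sinc_le {ι : Type*} [Fintype ι] (f : ι → ℝ) (i : ι) :
    |∏ j, sinc (f j)| ≤ |sinc (f i)| := by
  classical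
  rw [Finset.abs_prod, ← Finset.mul_prod_erase Finset.univ _ (Finset.mem_univ i)]
  exact mul_le_of_le_one_right (abs_nonneg _)
    (Finset.prod_le_one (fun j _ => abs_nonneg _) (fun j _ => abs_sinc_le_one _))

end Wave

open Wave

/-- F1a. The square wave, averaged. -/
theorem wave_expect {n : ℕ} (a : Fin n → ℝ) (i : Fin n) (hi : a i ≠ 0) {t : ℝ} (ht : 0 < t) :
    Summable (fun k : ℕ => |∏ j, sinc ((2 * (k : ℝ) + 1) * (a j * (π / (2 * t))))| / (2 * (k : ℝ) + 1)) ∧
    ∫ x, (if 0 < cos (π / (2 * t) * ∑ j, a j * x j) then (1 : ℝ) else 0) ∂(cube n) =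
      1 / 2 + (2 / π) * ∑' k : ℕ, (-1 : ℝ) ^ k *
        ((∏ j, sinc ((2 * (k : ℝ) + 1) * (a j * (π / (2 * t))))) / (2 * (k : ℝ) + 1)) := by
  obtain ⟨θ, hθ⟩ : ∃ θ, θ = π / (2 * t) := ⟨_, rfl⟩
  have hθ0 : 0 < θ := by rw [hθ]; positivity
  rw [← hθ]
  have hc : a i * θ ≠ 0 := mul_ne_zero hi hθ0.ne'
  have hsum : Summable (fun k : ℕ => |∏ j, sinc ((2 * (k : ℝ) + 1) * (a j * θ))| / (2 * (k : ℝ) + 1)) := by
    refine Summable.of_nonneg_of_le (fun k => by positivity) (fun k => ?_) (summable_sinc hc)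
    exact div_le_div_of_nonneg_right (abs_prod_sinc_le (fun j => (2 * (k : ℝ) + 1) * (a j * θ)) i)
      (by positivity)
  refine ⟨hsum, ?_⟩
  obtain ⟨m, rfl⟩ : ∃ m, n = m + 1 := ⟨n - 1, by have := i.2; omega⟩
  have hint : Integrable (fun x : Fin (m+1) → ℝ => sq (θ * ∑ j, a j * x j)) (cube (m+1)) := by
    refine Integrable.of_bound (C := 1) ?_ ?_
    · exact (sq_meas.comp (by fun_prop)).aestronglyMeasurable
    · filter_upwards with x
      rw [Real.norm_of_nonneg (sq_nonneg' _)]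
      exact sq_le_one _
  have h1 : ∫ x, (if 0 < cos (θ * ∑ j, a j * x j) then (1 : ℝ) else 0) ∂(cube (m+1)) =
      ∫ y, A (a i) (fun z => sq (θ * z)) (∑ j, a (i.succAbove j) * y j) ∂(cube m) :=
    cube_split i a (fun z => sq (θ * z)) hint
  rw [h1]
  obtain ⟨F, hF⟩ : ∃ F : ℕ → (Fin m → ℝ) → ℝ, F = fun (k : ℕ) (y : Fin m → ℝ) => (2 / π) * ((-1 : ℝ) ^ k *
    (sinc ((2 * (k : ℝ) + 1) * (a i * θ)) / (2 * (k : ℝ) + 1)) *
      cos ((2 * (k : ℝ) + 1) * θ * ∑ j, a (i.succAbove j) * y j)) := ⟨_, rfl⟩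
  have hA : ∀ y : Fin m → ℝ, A (a i) (fun z => sq (θ * z)) (∑ j, a (i.succAbove j) * y j) =
      1 / 2 + ∑' k, F k y := by
    intro y
    have := (hasSum_A hc (∑ j, a (i.succAbove j) * y j)).tsum_eq
    rw [hF]
    simp only
    rw [this]
    ring
  simp_rw [hA]
  have hFint : ∀ k, Integrable (F k) (cube m) := by
    intro k
    rw [hF]
    exact integrable_cube (by fun_prop)
  have hFb : ∀ k y, ‖F k y‖ ≤ (2 / π) * (|sinc ((2 * (k : ℝ) + 1) * (a i * θ))| / (2 * (k : ℝ) + 1)) := by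
    intro k y
    have hk : (0 : ℝ) < 2 * (k : ℝ) + 1 := by positivity
    rw [hF]
    simp only [norm_mul, norm_div, norm_pow, norm_neg, norm_one, one_pow, one_mul, Real.norm_eq_abs,
      abs_of_pos hk, abs_of_pos Real.pi_pos, abs_two]
    refine mul_le_mul_of_nonneg_left ?_ (by positivity)
    exact mul_le_of_le_one_right (by positivity) (Real.abs_cos_le_one _)
  have hFsum : Summable (fun k => ∫ y, ‖F k y‖ ∂(cube m)) := by
    refine Summable.of_nonneg_of_le (fun k => integral_nonneg fun y => norm_nonneg _) (fun k => ?_)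
      ((summable_sinc hc).mul_left (2 / π))
    calc ∫ y, ‖F k y‖ ∂(cube m) ≤ ∫ y, (2 / π) * (|sinc ((2 * (k : ℝ) + 1) * (a i * θ))| /
          (2 * (k : ℝ) + 1)) ∂(cube m) :=
          integral_mono (hFint k).norm (integrable_const _) (hFb k)
      _ = _ := by simp
  have hswap := hasSum_integral_of_summable_integral_norm hFint hFsum
  have hpt : ∀ y, HasSum (fun k => F k y) (∑' k, F k y) := by
    intro y
    have := (hasSum_A hc (∑ j, a (i.succAbove j) * y j)).summable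
    rw [hF]
    exact this.hasSum
  have hintsum : Integrable (fun y => ∑' k, F k y) (cube m) := by
    refine Integrable.of_bound (C := ∑' k : ℕ, (2 / π) * (|sinc ((2 * (k : ℝ) + 1) * (a i * θ))| / (2 * (k : ℝ) + 1))) ?_ ?_
    · have hmeas : Measurable (fun y => ∑' k, F k y) := by
        refine Measurable.tsum ?_
        intro k
        rw [hF]
        fun_prop
      exact hmeas.aestronglyMeasurable
    · filter_upwards with y
      exact tsum_of_norm_bounded ((summable_sinc hc).mul_left (2 / π)).hasSum (fun k => hFb k y)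
  rw [integral_add (integrable_const _) hintsum, ← hswap.tsum_eq]
  have hI : ∀ k : ℕ, ∫ y, F k y ∂(cube m) = (2 / π) * ((-1 : ℝ) ^ k *
      ((∏ j, sinc ((2 * (k : ℝ) + 1) * (a j * θ))) / (2 * (k : ℝ) + 1))) := by
    intro k
    rw [hF]
    simp only
    rw [integral_const_mul, integral_const_mul, cube_cos, Fin.prod_univ_succAbove _ i]
    have e : ∀ j, sinc (a (i.succAbove j) * ((2 * (k : ℝ) + 1) * θ)) =
        sinc ((2 * (k : ℝ) + 1) * (a (i.succAbove j) * θ)) := by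
      intro j; ring_nf
    simp_rw [e]
    ring
  simp_rw [hI]
  rw [tsum_mul_left]
  simp

end Pool.Agent.Helper89.FA
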